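import Pool.Agent.EQV.G1b
import Pool.Agent.EQV.G2a

set_option autoImplicit false

open NumberField IsDedekindDomain
open scoped Classical

/-!
# [EQV-G2] at a place of good reduction every unit class is the class of a point
-/

namespace EQV

/-- squares in a finite field -/
theorem g2p_mul {k : Type} [Field k] [Finite k] (h2 : (2 : k) ≠ 0) {x y : k} (hx : x ≠ 0) (hy : y ≠ 0) :
    IsSquare (x * y) ↔ (IsSquare x ↔ IsSquare y) := by
  have hfk : Fintype k := Fintype.ofFinite k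
  have hr : ringChar k ≠ 2 := by
    intro h
    have h3 : ((ringChar k : ℕ) : k) = 0 := CharP.cast_eq_zero k _
    rw [h] at h3
    exact h2 (by exact_mod_cast h3)
  constructor
  · intro h
    constructor
    · intro h1
      have h3 := h.div h1
      rwa [mul_div_cancel_left₀ _ hx] at h3
    · intro h1
      have h3 := h.div h1
      rwa [mul_div_cancel_right₀ _ hy] at h3
  · intro h
    by_cases h1 : IsSquare x
    · exact h1.mul (h.1 h1)
    · have h3 : ¬ IsSquare y := fun h3 => h1 (h.2 h3)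
      rw [FiniteField.isSquare_iff hr hx] at h1
      rw [FiniteField.isSquare_iff hr hy] at h3
      rw [FiniteField.isSquare_iff hr (mul_ne_zero hx hy), mul_pow,
        (FiniteField.pow_dichotomy hr hx).resolve_left h1, (FiniteField.pow_dichotomy hr hy).resolve_left h3]
      ring

theorem g2p_prop (E A P Q R : Prop) (h : E → A → ¬ (P ∧ Q) → R) :
    (P ∧ Q) ∨ ((P ↔ (A ↔ (E ↔ A))) ∧ (Q ↔ (E ↔ A))) ∨ ((P ↔ A) ∧ (Q ↔ (A ↔ (E ↔ A)))) ∨
      ((P ↔ (E ↔ A)) ∧ (Q ↔ (E ↔ (E ↔ A)))) ∨ R := by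
  by_cases hE : E <;> by_cases hA : A <;> by_cases hP : P <;> by_cases hQ : Q <;> simp_all

/-- the statement over the residue field -/
theorem g2p_ff {k : Type} [Field k] [Finite k] (h2 : (2 : k) ≠ 0) {a b β₀ β₁ : k} (ha : a ≠ 0)
    (hab : a ^ 2 - a * b + b ^ 2 = 0) (hd : a - b ≠ 0) (h₀ : β₀ ≠ 0) (h₁ : β₁ ≠ 0) :
    (IsSquare β₀ ∧ IsSquare β₁) ∨ (IsSquare (β₀ * (a * b)) ∧ IsSquare (β₁ * -a)) ∨
      (IsSquare (β₀ * a) ∧ IsSquare (β₁ * (a * (a - b)))) ∨ (IsSquare (β₀ * b) ∧ IsSquare (β₁ * (b - a))) ∨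
      ∃ x : k, x ≠ 0 ∧ x ≠ a ∧ x ≠ b ∧ IsSquare (x * (x - a) * (x - b)) ∧
        IsSquare (β₀ * x) ∧ IsSquare (β₁ * (x - a)) := by
  have hb : b ≠ 0 := by
    rintro rfl
    apply ha
    have : a ^ 2 = 0 := by linear_combination hab
    exact pow_eq_zero_iff two_ne_zero |>.1 this
  have hba : b - a ≠ 0 := by
    intro h
    apply hd
    linear_combination -h
  have hm1 : (-1 : k) ≠ 0 := neg_ne_zero.2 one_ne_zero
  have eb : b = (-1) * a * ((b / a) ^ 2) ^ 2 := by
    field_simp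
    linear_combination (a + b) * hab
  have ed : a - b = (-1) * a * (b / a) ^ 2 := by
    field_simp
    linear_combination hab
  have hc : (b / a) ^ 2 ≠ 0 := pow_ne_zero _ (div_ne_zero hb ha)
  have hc2 : IsSquare ((b / a) ^ 2) := ⟨b / a, pow_two _⟩
  have hc4 : IsSquare (((b / a) ^ 2) ^ 2) := ⟨(b / a) ^ 2, pow_two _⟩
  have hB : IsSquare b ↔ (IsSquare (-1 : k) ↔ IsSquare a) := by
    rw [← g2p_mul h2 hm1 ha]
    constructor
    · intro h
      rw [eb] at h
      exact ((g2p_mul h2 (mul_ne_zero hm1 ha) (pow_ne_zero 2 hc)).1 h).2 hc4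
    · intro h
      rw [eb]
      exact h.mul hc4
  have hD : IsSquare (a - b) ↔ (IsSquare (-1 : k) ↔ IsSquare a) := by
    rw [← g2p_mul h2 hm1 ha]
    constructor
    · intro h
      rw [ed] at h
      exact ((g2p_mul h2 (mul_ne_zero hm1 ha) hc).1 h).2 hc2
    · intro h
      rw [ed]
      exact h.mul hc2
  have q1 : IsSquare (β₀ * (a * b)) ↔ (IsSquare β₀ ↔ (IsSquare a ↔ IsSquare b)) := by
    rw [g2p_mul h2 h₀ (mul_ne_zero ha hb), g2p_mul h2 ha hb]
  have q2 : IsSquare (β₁ * -a) ↔ (IsSquare β₁ ↔ (IsSquare (-1 : k) ↔ IsSquare a)) := by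
    have e : -a = (-1) * a := by ring
    rw [e, g2p_mul h2 h₁ (mul_ne_zero hm1 ha), g2p_mul h2 hm1 ha]
  have q3 : IsSquare (β₀ * a) ↔ (IsSquare β₀ ↔ IsSquare a) := g2p_mul h2 h₀ ha
  have q4 : IsSquare (β₁ * (a * (a - b))) ↔ (IsSquare β₁ ↔ (IsSquare a ↔ IsSquare (a - b))) := by
    rw [g2p_mul h2 h₁ (mul_ne_zero ha hd), g2p_mul h2 ha hd]
  have q5 : IsSquare (β₀ * b) ↔ (IsSquare β₀ ↔ IsSquare b) := g2p_mul h2 h₀ hb
  have q6 : IsSquare (β₁ * (b - a)) ↔ (IsSquare β₁ ↔ (IsSquare (-1 : k) ↔ IsSquare (a - b))) := by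
    have e : b - a = (-1) * (a - b) := by ring
    rw [e, g2p_mul h2 h₁ (mul_ne_zero hm1 hd), g2p_mul h2 hm1 hd]
  rw [q1, q2, q3, q4, q5, q6, hB, hD]
  apply g2p_prop
  intro hE hA hPQ
  obtain ⟨x, hx0, hxa, hxb, s0, s1, s2⟩ := ff_pair k h2 a b ha hb (sub_ne_zero.1 hd) hE hA
    (hB.2 (iff_of_true hE hA)) (hD.2 (iff_of_true hE hA)) β₀ β₁ h₀ h₁ hPQ
  refine ⟨x, hx0, hxa, hxb, ?_, s0, s1⟩
  have h3 : IsSquare (x * (x - a) * (x - b) * (β₀ * β₁) ^ 2) := by
    have h4 := (s0.mul s1).mul s2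
    have e : x * (x - a) * (x - b) * (β₀ * β₁) ^ 2 =
        β₀ * x * (β₁ * (x - a)) * (β₀ * β₁ * (x - b)) := by ring
    rw [e]
    exact h4
  have h5 := h3.div (⟨β₀ * β₁, pow_two _⟩ : IsSquare ((β₀ * β₁) ^ 2))
  rwa [mul_div_cancel_right₀ _ (pow_ne_zero 2 (mul_ne_zero h₀ h₁))] at h5

section
variable {F : Type} [Field F] [NumberField F] (v : HeightOneSpectrum (𝓞 F))

theorem g2p_residue_zero (x : v.adicCompletionIntegers F) :
    IsLocalRing.residue (v.adicCompletionIntegers F) x = 0 ↔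
      Valued.v (x : v.adicCompletion F) < (1 : WithZero (Multiplicative ℤ)) := by
  rw [IsLocalRing.residue_eq_zero_iff]
  exact CM27.c3_mem_max F v x

/-- a unit whose residue is a square is a square -/
theorem g2p_lift (h2 : (2 : 𝓞 F) ∉ v.asIdeal) (u : v.adicCompletionIntegers F)
    (hu : IsLocalRing.residue (v.adicCompletionIntegers F) u ≠ 0)
    (hs : IsSquare (IsLocalRing.residue (v.adicCompletionIntegers F) u)) :
    IsSquare (u : v.adicCompletion F) := by
  obtain ⟨r, hr⟩ := hs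
  obtain ⟨s, rfl⟩ := IsLocalRing.residue_surjective r
  have h1 : Valued.v (u : v.adicCompletion F) = (1 : WithZero (Multiplicative ℤ)) := by
    refine le_antisymm u.2 (not_lt.1 ?_)
    rw [← g2p_residue_zero]
    exact hu
  have h3 : IsLocalRing.residue (v.adicCompletionIntegers F) (u - s * s) = 0 := by
    rw [map_sub, map_mul, hr, sub_self]
  have h4 := (g2p_residue_zero v (u - s * s)).1 h3
  have h5 : ((u - s * s : v.adicCompletionIntegers F) : v.adicCompletion F) =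
      (u : v.adicCompletion F) - (s : v.adicCompletion F) ^ 2 := by
    rw [pow_two]
    rfl
  rw [h5] at h4
  exact sq_of_residue v h2 (s := (s : v.adicCompletion F)) h1 h4

/-- an element of even valuation is a unit times a square -/
theorem g2p_unit {β : v.adicCompletion F} (hβ : β ≠ 0)
    (he : IsSquare (Valued.v β : WithZero (Multiplicative ℤ))) :
    ∃ β' t : v.adicCompletion F, β = β' * t ^ 2 ∧ Valued.v β' = (1 : WithZero (Multiplicative ℤ)) := by
  obtain ⟨g, hg⟩ := he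
  have hv : (Valued.v β : WithZero (Multiplicative ℤ)) ≠ 0 := (Valuation.ne_zero_iff _).2 hβ
  have hg0 : g ≠ 0 := by
    rintro rfl
    rw [mul_zero] at hg
    exact hv hg
  obtain ⟨π, hπ⟩ := v.valuation_exists_uniformizer F
  have hπ' : Valued.v (algebraMap F (v.adicCompletion F) π) = (WithZero.exp (-1 : ℤ) : WithZero (Multiplicative ℤ)) := by
    rw [← hπ]
    exact HeightOneSpectrum.valuedAdicCompletion_eq_valuation' v π
  obtain ⟨n, rfl⟩ : ∃ n : ℤ, g = WithZero.exp n := ⟨WithZero.log g, (WithZero.exp_log hg0).symm⟩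
  set t := (algebraMap F (v.adicCompletion F) π) ^ (-n) with ht
  have hvt : Valued.v t = (WithZero.exp n : WithZero (Multiplicative ℤ)) := by
    rw [ht, map_zpow₀, hπ', ← WithZero.exp_zsmul]
    congr 1
    simp
  have ht0 : t ≠ 0 := by
    intro h0
    rw [h0, map_zero] at hvt
    exact WithZero.exp_ne_zero hvt.symm
  refine ⟨β / t ^ 2, t, ?_, ?_⟩
  · field_simp
  · rw [map_div₀, map_pow, hvt, hg, pow_two]
    exact div_self (mul_ne_zero WithZero.exp_ne_zero WithZero.exp_ne_zero)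

end

/-- [EQV-G2p] the version with full 2-torsion and two classes: `v` odd, `a`, `a - b` units, `a² - a b + b² = 0`. Every pair `(β₀, β₁)` of classes of even valuation is the pair of classes of
`0` (both squares), or of one of the three points of order 2 of `y² = x (x - a) (x - b)`, or of a point `(x, y)`, `x ∉ {0, a, b}`. PROOF. `b = ζ a` with `ζ² - ζ + 1 = 0`, `ζ = -ω²`, `1 - ζ = -ω`
(`ω := -ζ²`... `ω` and `ω²` are squares because `ω = ω⁴`), so `b` is `-a` and `a - b` is `-a` up to squares, `b` is a unit. Reduce to units `β₀, β₁` and to the residue field `k` (`sq_of_residue`). Case (A): `-1` and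
`a` are squares in `k`: `ff_pair`, lift `x̄` (`x`, `x - a`, `x - b` units), `x (x-a) (x-b)` is a unit whose residue is a square. Case (B): `-1` is a nonsquare in `k`: the three pairs of the points of order 2 are
`(-1, -a)`, `(a, -1)`, `(-a, a)` up to squares: the three nontrivial pairs. Case (C): `-1` is a square and `a` is not: `(1, a)`, `(a, 1)`, `(a, a)`. -/
theorem good_place_pair {F : Type} [Field F] [NumberField F] (v : HeightOneSpectrum (𝓞 F))
    (h2 : (2 : 𝓞 F) ∉ v.asIdeal) {a b β₀ β₁ : v.adicCompletion F}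
    (ha : Valued.v a = (1 : WithZero (Multiplicative ℤ))) (hab : a ^ 2 - a * b + b ^ 2 = 0)
    (hd : Valued.v (a - b) = (1 : WithZero (Multiplicative ℤ)))
    (hβ₀ : β₀ ≠ 0) (hβ₁ : β₁ ≠ 0) (he₀ : IsSquare (Valued.v β₀ : WithZero (Multiplicative ℤ)))
    (he₁ : IsSquare (Valued.v β₁ : WithZero (Multiplicative ℤ))) :
    (IsSquare β₀ ∧ IsSquare β₁) ∨ (IsSquare (β₀ * (a * b)) ∧ IsSquare (β₁ * -a)) ∨
      (IsSquare (β₀ * a) ∧ IsSquare (β₁ * (a * (a - b)))) ∨ (IsSquare (β₀ * b) ∧ IsSquare (β₁ * (b - a))) ∨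
      ∃ x y : v.adicCompletion F, x ≠ 0 ∧ x ≠ a ∧ x ≠ b ∧ y ^ 2 = x * (x - a) * (x - b) ∧
        IsSquare (β₀ * x) ∧ IsSquare (β₁ * (x - a)) := by
  have hfin := (CM27.card_residue F v).2
  obtain ⟨γ₀, t₀, e₀, hγ₀⟩ := g2p_unit v hβ₀ he₀
  obtain ⟨γ₁, t₁, e₁, hγ₁⟩ := g2p_unit v hβ₁ he₁
  have one_le : ∀ {z : v.adicCompletion F}, Valued.v z = (1 : WithZero (Multiplicative ℤ)) →
      Valued.v z ≤ (1 : WithZero (Multiplicative ℤ)) := fun h => h.le
  have hb1 : Valued.v b ≤ (1 : WithZero (Multiplicative ℤ)) := by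
    have e : b = a - (a - b) := by ring
    rw [e]
    exact (Valuation.map_sub _ _ _).trans (max_le ha.le hd.le)
  set A : v.adicCompletionIntegers F := ⟨a, ha.le⟩ with hA
  set B : v.adicCompletionIntegers F := ⟨b, hb1⟩ with hB
  set G₀ : v.adicCompletionIntegers F := ⟨γ₀, hγ₀.le⟩ with hG₀
  set G₁ : v.adicCompletionIntegers F := ⟨γ₁, hγ₁.le⟩ with hG₁
  set ρ := IsLocalRing.residue (v.adicCompletionIntegers F) with hρ
  have hne : ∀ z : v.adicCompletionIntegers F, Valued.v (z : v.adicCompletion F) = (1 : WithZero (Multiplicative ℤ)) →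
      ρ z ≠ 0 := by
    intro z hz h0
    have h1 := (g2p_residue_zero v z).1 h0
    rw [hz] at h1
    exact lt_irrefl _ h1
  have hA0 : ρ A ≠ 0 := hne A ha
  have hD0 : ρ A - ρ B ≠ 0 := by
    rw [← map_sub]
    exact hne (A - B) hd
  have hG₀0 : ρ G₀ ≠ 0 := hne G₀ hγ₀
  have hG₁0 : ρ G₁ ≠ 0 := hne G₁ hγ₁
  have h20 : (2 : IsLocalRing.ResidueField (v.adicCompletionIntegers F)) ≠ 0 := by
    have h3 : Valued.v ((2 : v.adicCompletionIntegers F) : v.adicCompletion F) =
        (1 : WithZero (Multiplicative ℤ)) := by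
      have h4 : ((2 : v.adicCompletionIntegers F) : v.adicCompletion F) =
          algebraMap F (v.adicCompletion F) (algebraMap (𝓞 F) F 2) := by
        rw [map_ofNat, map_ofNat]
        rfl
      rw [h4]
      exact (HeightOneSpectrum.valuedAdicCompletion_eq_valuation' v _).trans
        ((v.valuation_eq_one_iff_notMem).2 h2)
    have h5 := hne 2 h3
    rwa [map_ofNat] at h5
  have hABz : A ^ 2 - A * B + B ^ 2 = 0 := Subtype.ext hab
  have hABρ : ρ A ^ 2 - ρ A * ρ B + ρ B ^ 2 = 0 := by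
    have h3 := congrArg ρ hABz
    rwa [map_add, map_sub, map_mul, map_pow, map_pow, map_zero] at h3
  have hB0 : ρ B ≠ 0 := by
    intro h0
    rw [h0] at hABρ
    apply hA0
    have h3 : ρ A ^ 2 = 0 := by linear_combination hABρ
    exact pow_eq_zero_iff two_ne_zero |>.1 h3
  -- from the residue field to the completion
  have up : ∀ (g : v.adicCompletionIntegers F) (γ β t : v.adicCompletion F) (c : v.adicCompletionIntegers F),
      (g : v.adicCompletion F) = γ → β = γ * t ^ 2 → ρ g ≠ 0 → ρ c ≠ 0 → IsSquare (ρ g * ρ c) →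
      IsSquare (β * c) := by
    intro g γ β t c hg hβ hg0 hc0 hs
    rw [← map_mul] at hs
    have h3 := g2p_lift v h2 (g * c) (by rw [map_mul]; exact mul_ne_zero hg0 hc0) hs
    obtain ⟨r, hr⟩ := h3
    have hr' : (g : v.adicCompletion F) * (c : v.adicCompletion F) = r * r := hr
    refine ⟨r * t, ?_⟩
    rw [hβ, ← hg]
    linear_combination t ^ 2 * hr'
  have hab0 : ρ (A * B) ≠ 0 := by rw [map_mul]; exact mul_ne_zero hA0 hB0
  rcases g2p_ff h20 hA0 hABρ hD0 hG₀0 hG₁0 with ⟨s0, s1⟩ | ⟨s0, s1⟩ | ⟨s0, s1⟩ | ⟨s0, s1⟩ |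
    ⟨x, hx0, hxa, hxb, s2, s0, s1⟩
  · left
    have r0 := up G₀ γ₀ β₀ t₀ 1 rfl e₀ hG₀0 (by rw [map_one]; exact one_ne_zero) (by rw [map_one, mul_one]; exact s0)
    have r1 := up G₁ γ₁ β₁ t₁ 1 rfl e₁ hG₁0 (by rw [map_one]; exact one_ne_zero) (by rw [map_one, mul_one]; exact s1)
    have e : ((1 : v.adicCompletionIntegers F) : v.adicCompletion F) = 1 := rfl
    rw [e, mul_one] at r0 r1
    exact ⟨r0, r1⟩
  · right; left
    refine ⟨up G₀ γ₀ β₀ t₀ (A * B) rfl e₀ hG₀0 hab0 (by rw [map_mul]; exact s0), ?_⟩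
    exact up G₁ γ₁ β₁ t₁ (-A) rfl e₁ hG₁0 (by rw [map_neg]; exact neg_ne_zero.2 hA0) (by rw [map_neg]; exact s1)
  · right; right; left
    refine ⟨up G₀ γ₀ β₀ t₀ A rfl e₀ hG₀0 hA0 s0, ?_⟩
    exact up G₁ γ₁ β₁ t₁ (A * (A - B)) rfl e₁ hG₁0 (by rw [map_mul, map_sub]; exact mul_ne_zero hA0 hD0)
      (by rw [map_mul, map_sub]; exact s1)
  · right; right; right; left
    refine ⟨up G₀ γ₀ β₀ t₀ B rfl e₀ hG₀0 hB0 s0, ?_⟩
    refine up G₁ γ₁ β₁ t₁ (B - A) rfl e₁ hG₁0 ?_ (by rw [map_sub]; exact s1)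
    rw [map_sub]
    intro h0
    apply hD0
    linear_combination -h0
  · right; right; right; right
    obtain ⟨X, rfl⟩ := IsLocalRing.residue_surjective x
    have hXa0 : ρ (X - A) ≠ 0 := by
      rw [map_sub]
      exact sub_ne_zero.2 hxa
    have hXb0 : ρ (X - B) ≠ 0 := by
      rw [map_sub]
      exact sub_ne_zero.2 hxb
    have s2' : IsSquare (ρ (X * (X - A) * (X - B))) := by
      rw [map_mul, map_mul, map_sub, map_sub]
      exact s2
    obtain ⟨y, hy⟩ := g2p_lift v h2 (X * (X - A) * (X - B))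
      (by rw [map_mul, map_mul]; exact mul_ne_zero (mul_ne_zero hx0 hXa0) hXb0) s2'
    refine ⟨(X : v.adicCompletion F), y, ?_, ?_, ?_, ?_, ?_, ?_⟩
    · intro h0
      apply hx0
      have h3 : X = 0 := Subtype.ext h0
      rw [h3, map_zero]
    · intro h0
      apply hxa
      have h3 : X = A := Subtype.ext h0
      rw [h3]
    · intro h0
      apply hxb
      have h3 : X = B := Subtype.ext h0
      rw [h3]
    · rw [pow_two, ← hy]
      rfl
    · exact up G₀ γ₀ β₀ t₀ X rfl e₀ hG₀0 hx0 s0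
    · exact up G₁ γ₁ β₁ t₁ (X - A) rfl e₁ hG₁0 hXa0 (by rw [map_sub]; exact s1)

end EQV
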