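import Pool.Agent.EQV.Main
import Pool.Agent.UN.OS7

/-!
# [EQV] the four fields together, final form
-/

set_option autoImplicit false

open NumberField IsDedekindDomain Filter Topology
open scoped Classical

namespace EQV

theorem FinSha.of_twoPart {K : Type} [Field K] [NumberField K] {E : WeierstrassCurve K}
    (h : SBSD2.TwoPartRankZero E) : FinSha E := by
  obtain ⟨-, h3, Z, -, -, -, hsha, -⟩ := h
  exact ⟨h3, fun x hx => hsha x 1 (by rw [pow_one]; exact hx)⟩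

/-- the statement for a property `P` which is equivalent to `FinSha` -/
theorem main4P (K : IntermediateField ℚ ℂ) [NumberField K] (hK : Module.finrank ℚ K = 2)
    {P : WeierstrassCurve K → Prop} (hP : ∀ E, ModTwo E → (P E ↔ FinSha E))
    (hP' : ∀ E, SBSD2.TwoPartRankZero E → P E)
    (n : ℕ) (j : K) (α : ℝ)
    (h : (n = 1 ∧ j = 1728 ∧ α = XD.alp2) ∨ (n = 2 ∧ j = 8000 ∧ α = XD.alp2) ∨
      (n = 3 ∧ j = 0 ∧ α = XD.alp3) ∨ (n = 7 ∧ j = -3375 ∧ α = XD.alp7))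
    (hr : ∃ r : K, r ^ 2 = -n) :
    (∀ E : WeierstrassCurve K, (∃ _ : E.IsElliptic, E.j = j) → Ad n E → ModTwo E) ∧
    (∀ X : ℕ, (UN.fam K j (Ad n) X).Finite) ∧
    Tendsto (fun X => (UN.fam K j (Ad n) X).ncard) atTop atTop ∧
    Tendsto (fun X => ((UN.fam K j (fun E => Ad n E ∧ P E) X).ncard : ℝ) /
      ((UN.fam K j (Ad n) X).ncard : ℝ)) atTop (𝓝 α) ∧
    (n = 1 → (∀ X : ℕ, (UN.fam K j (fun _ => True) X).Finite) ∧
      ∃ X₀ : ℕ, ∀ X : ℕ, X₀ ≤ X → 343 / 1000 * ((UN.fam K j (fun _ => True) X).ncard : ℝ) ≤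
        ((UN.fam K j P X).ncard : ℝ)) := by
  obtain ⟨h1, h2, h3, h4⟩ := main4 K hK n j α h hr
  refine ⟨h1, h2, h3, ?_, ?_⟩
  · have e2 : ∀ X, UN.fam K j (fun E => Ad n E ∧ P E) X = UN.fam K j (fun E => Ad n E ∧ FinSha E) X :=
      fam_congr fun E he hE => and_congr_right fun hA => hP E (h1 E ⟨he, hE⟩ hA)
    simp only [e2]
    exact h4
  · intro hn
    rcases h with ⟨-, rfl, -⟩ | ⟨h, -⟩ | ⟨h, -⟩ | ⟨h, -⟩
    · obtain rfl := UF.eq_KI K hK (by simpa [hn] using hr)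
      exact UN.one_sharp' fun s t S a h => hP' _ (QT.final_ex _ ⟨s, t, S, a, h, rfl⟩)
    all_goals exact absurd hn (by rw [h]; norm_num)

end EQV
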