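import Pool.Agent.EQV.XA1
import Pool.Agent.TRS.S3a

set_option autoImplicit false

open WeierstrassCurve.Affine
open scoped Classical

/-!
# [EQV-XA4] Kummer theory for the crossed homomorphisms with values in `{0, (0, 0)}`
-/

namespace EQV

open Q2T

/-- [EQV-XA4] PROOF. `χ σ = 1` if `c σ = 0`, `-1` otherwise (`hc.loc.comp`); multiplicative by `hc.crs`, `gm_T0`, `map_zero`, `T0_add_self`, `mk_ne_zero`. `TRS.kummer_char` gives `α ≠ 0`, `z`; `β = α`: `σ α = χ σ α`, `-α ≠ α`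
(`2 ≠ 0`: `D.ok.1`), so `σ α = α` iff `c σ = 0`. -/
theorem exists_kd {F : Type} [Field F] [CharZero F] {Ω : Type} [Field Ω] [Algebra F Ω] [IsGalois F Ω] {a b : F}
    {A B : Ω} (D : Dt a b A B) (c : (Ω ≃ₐ[F] Ω) → (E A B).toAffine.Point) (hc : Crs D c)
    (h0 : ∀ σ, c σ = 0 ∨ c σ = mk D.ok 0 0 zero_eq) :
    ∃ (z : F) (β : Ω), z ≠ 0 ∧ β ^ 2 = algebraMap F Ω z ∧ ∀ σ : Ω ≃ₐ[F] Ω, c σ = kd D.ok β σ := by
  have hT := mk_ne_zero D.ok 0 0 zero_eq
  obtain ⟨α, hα0, hα, z, hz0, hz⟩ := TRS.kummer_char (K := F) (Ω := Ω)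
    (fun σ => if c σ = 0 then (1 : ℤ) else -1)
    (fun σ => by
      show (if c σ = 0 then (1 : ℤ) else -1) = 1 ∨ (if c σ = 0 then (1 : ℤ) else -1) = -1
      split_ifs
      · exact Or.inl rfl
      · exact Or.inr rfl)
    (hc.loc.comp (fun P => if P = 0 then (1 : ℤ) else -1))
    (fun σ τ => by
      show (if c (σ * τ) = 0 then (1 : ℤ) else -1) =
        (if c σ = 0 then (1 : ℤ) else -1) * (if c τ = 0 then (1 : ℤ) else -1)
      rw [hc.crs]
      rcases h0 τ with hτ | hτ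
      · rw [hτ, map_zero, add_zero, if_pos rfl, mul_one]
      · rw [hτ, gm_T0, if_neg hT]
        rcases h0 σ with hσ | hσ
        · rw [hσ, zero_add, if_neg hT, if_pos rfl, one_mul]
        · rw [hσ, T0_add_self, if_pos rfl, if_neg hT]
          norm_num)
  refine ⟨z, α, hz0, hz.symm, fun σ => ?_⟩
  have h1 : σ α = (((if c σ = 0 then (1 : ℤ) else -1) : ℤ) : Ω) * α := hα σ
  unfold kd
  rcases h0 σ with hσ | hσ
  · rw [hσ, if_pos rfl, Int.cast_one, one_mul] at h1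
    rw [if_pos h1, hσ]
  · rw [hσ, if_neg hT] at h1
    rw [if_neg, hσ]
    intro h2
    rw [h2] at h1
    have h3 : (2 : Ω) * α = 0 := by
      push_cast at h1
      linear_combination h1
    exact hα0 ((mul_eq_zero.1 h3).resolve_left D.ok.1)

end EQV
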