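import Pool.Agent.EQV.XA1

set_option autoImplicit false

open WeierstrassCurve.Affine
open scoped Classical

/-!
# [EQV-XA5] the local conditions
-/

namespace EQV

open Q2T

/-- [EQV-XA5a] every automorphism of `L̄/L` restricts to `K̄` (along `j`). PROOF. As `hres` in `Q2D.locB` (Pool/Agent/Q2D/D7.lean, complete; `AlgEquiv.restrictNormal_commutes`; or `MP_9ab903_nt/TH/F10.lean`). -/
theorem exists_res {K : Type} [Field K] (L : Type) [Field L] [Algebra K L]
    (j : AlgebraicClosure K →ₐ[K] AlgebraicClosure L) (σ : AlgebraicClosure L ≃ₐ[L] AlgebraicClosure L) :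
    ∃ τ : AlgebraicClosure K ≃ₐ[K] AlgebraicClosure K, ∀ x, j (τ x) = σ (j x) := by
  let _ : Algebra (AlgebraicClosure K) (AlgebraicClosure L) :=
    (j : AlgebraicClosure K →+* AlgebraicClosure L).toAlgebra
  have : IsScalarTower K (AlgebraicClosure K) (AlgebraicClosure L) :=
    IsScalarTower.of_algebraMap_eq' (by
      ext x
      show algebraMap K (AlgebraicClosure L) x = j (algebraMap K (AlgebraicClosure K) x)
      rw [j.commutes])
  refine ⟨(σ.restrictScalars K).restrictNormal (AlgebraicClosure K), fun x => ?_⟩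
  exact AlgEquiv.restrictNormal_commutes (σ.restrictScalars K) (AlgebraicClosure K) x

/-- [EQV-XA5b] PROOF. `j` exists (`IsAlgClosed.lift`). Apply `h` with `j` and `D' : Dt a b (algebraMap L _ (algebraMap K L a)) (..)` (`hA` by `IsScalarTower.algebraMap_apply`, `ok_am (ok_am ho)`): `Q`.
`locI_of_Q` over `L` (`CharZero L`: `charZero_of_injective_algebraMap`, so `IsGalois L L̄`) with `β' = j β`, `β' ^ 2 = algebraMap L _ (algebraMap K L z)`: for `σ` take `τ` (`exists_res`); `gm D D' j (kd β τ)` is `kc β' σ` because `τ β = β` iff `σ (j β) = j β`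
(`j` injective; `gm_T0`, `map_zero`); compare the end of `cz_trivialOver` (EQV/I4b.lean). `gm D' D' (σ.toAlgHom.restrictScalars K) Q = ptE .. (σ : _ →+* _) .. Q` (`rfl` or a congruence lemma for `ptE`: the underlying ring homomorphisms are equal). -/
theorem locI_of_tri {K : Type} [Field K] [CharZero K] {a b z : K} (ho : Ok a b) {A B : AlgebraicClosure K}
    (D : Dt a b A B) (hz : z ≠ 0) {β : AlgebraicClosure K} (hβ : β ^ 2 = algebraMap K (AlgebraicClosure K) z)
    (L : Type) [Field L] [Algebra K L] (h : Tri D L (kd D.ok β)) :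
    LocI (algebraMap K L a) (algebraMap K L b) (algebraMap K L z) := by
  have j : AlgebraicClosure K →ₐ[K] AlgebraicClosure L := IsAlgClosed.lift
  have hCZ : CharZero L := charZero_of_injective_algebraMap (algebraMap K L).injective
  have hoL : Ok (algebraMap K L a) (algebraMap K L b) := ok_am ho
  have hoLL : Ok (algebraMap L (AlgebraicClosure L) (algebraMap K L a))
    (algebraMap L (AlgebraicClosure L) (algebraMap K L b)) := ok_am hoL
  have D' : Dt a b (algebraMap L (AlgebraicClosure L) (algebraMap K L a))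
      (algebraMap L (AlgebraicClosure L) (algebraMap K L b)) :=
    ⟨IsScalarTower.algebraMap_apply K L (AlgebraicClosure L) a,
      IsScalarTower.algebraMap_apply K L (AlgebraicClosure L) b, hoLL⟩
  obtain ⟨Q, hQ⟩ := h j _ _ D'
  have hβ' : (j β) ^ 2 = algebraMap L (AlgebraicClosure L) (algebraMap K L z) := by
    rw [← map_pow, hβ, j.commutes]
    exact IsScalarTower.algebraMap_apply K L (AlgebraicClosure L) z
  have hz' : algebraMap K L z ≠ 0 := (map_ne_zero _).2 hz
  refine locI_of_Q hoL hoLL hz' hβ' Q fun σ => ?_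
  obtain ⟨τ, hτ⟩ := exists_res L j σ
  have h1 := hQ σ τ hτ
  have h2 : gm D D' j (kd D.ok β τ) = kc hoLL (j β) σ := by
    unfold kd kc
    by_cases h3 : τ β = β
    · have h4 : σ (j β) = j β := by
        rw [← hτ, h3]
      rw [if_pos h3, if_pos h4, map_zero]
    · have h4 : ¬ σ (j β) = j β := by
        intro h5
        apply h3
        have h6 : j (τ β) = j β := by rw [hτ, h5]
        exact j.injective h6
      rw [if_neg h3, if_neg h4, gm_T0]
  rw [← h2, h1]
  rfl

end EQV
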