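import Pool.Agent.EQV.XA1

set_option autoImplicit false

open WeierstrassCurve.Affine
open scoped Classical

/-!
# [EQV-XA6] a class which satisfies the condition over `F` gives a principal crossed homomorphism; the isogeny is surjective over an algebraically closed field
-/

namespace EQV

open Q2T

/-- [EQV-XA6a] PROOF. `obtain ⟨rfl, rfl, hok⟩ := D`, `exists_Q` (EQV/I3.lean); `kd` and `kc` are the same, `gm` unfolds to `ptE`. -/
theorem exists_R {F : Type} [Field F] {a b z : F} {Ω : Type} [Field Ω] [Algebra F Ω] (ho : Ok a b) {A B : Ω}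
    (D : Dt a b A B) (hz : z ≠ 0) {β : Ω} (hβ : β ^ 2 = algebraMap F Ω z) (h : LocI a b z) :
    ∃ R : (E A B).toAffine.Point, ∀ σ : Ω ≃ₐ[F] Ω, kd D.ok β σ = gm D D σ.toAlgHom R - R := by
  obtain ⟨rfl, rfl, hok⟩ := D
  obtain ⟨Q, hQ⟩ := exists_Q ho hok hz hβ h
  exact ⟨Q, fun σ => hQ σ⟩

/-- [EQV-XA6b] PROOF. `mk_cases`. `R = 0`: `P = 0`. `R = mk 0 y`: `y = 0`; `P = (e, 0)`, `e² + a e + b = 0` (`IsAlgClosed.exists_pow_nat_eq` for `a² - 4b`, or `i3_root`), `e ≠ 0` (`b ≠ 0`), `phi_mk`: `(0, 0)`. `R = mk x y`, `x ≠ 0`: `m² = x`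
(`IsAlgClosed.exists_pow_nat_eq`), `exists_lift` (EQV/I1b.lean). -/
theorem phi_surj {k : Type} [Field k] [IsAlgClosed k] {a b : k} (ho : Ok a b)
    (R : (E (-2 * a) (a ^ 2 - 4 * b)).toAffine.Point) : ∃ P : (E a b).toAffine.Point, phi ho P = R := by
  rcases mk_cases (ok' ho) R with rfl | ⟨x, y, h, rfl⟩
  · exact ⟨0, map_zero _⟩
  · by_cases hx : x = 0
    · subst hx
      have hy : y = 0 := by
        have h1 : y ^ 2 = 0 := by rw [h]; ring
        exact pow_eq_zero_iff (two_ne_zero) |>.1 h1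
      subst hy
      obtain ⟨d, hd⟩ := IsAlgClosed.exists_pow_nat_eq (a ^ 2 - 4 * b) two_pos
      have he := i3_root (A := a) (B := b) ho.1 hd
      have he0 : (d - a) / 2 ≠ 0 := by
        intro h1
        rw [h1] at he
        apply ho.2.1
        linear_combination he
      refine ⟨mk ho ((d - a) / 2) 0 (root_eq he), ?_⟩
      rw [phi_mk ho _ _ _ he0]
      refine mk_ext (ok' ho) ?_ ?_
      · rw [zero_pow two_ne_zero, zero_div]
      · rw [zero_mul, zero_div]
    · obtain ⟨m, rfl⟩ := IsAlgClosed.exists_pow_nat_eq x two_pos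
      have hm : m ≠ 0 := by
        rintro rfl
        exact hx (zero_pow two_ne_zero)
      obtain ⟨P, hP, -⟩ := exists_lift ho hm h
      exact ⟨P, hP⟩

end EQV
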