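import Pool.Agent.EQV.XA2
import Pool.Agent.EQV.XA4
import Pool.Agent.EQV.XA5
import Pool.Agent.EQV.XA6

set_option autoImplicit false

open WeierstrassCurve.Affine NumberField IsDedekindDomain
open scoped Classical

/-!
# [EQV-XA8] one step of the descent
-/

namespace EQV

open Q2T

/-- [EQV-XA8] PROOF. `phi_surj` over the algebraic closure: `R = phi D.ok R'`. `c' σ = c σ - (gm D D σ R' - R')` is crossed and locally trivial (`Crs.sub`, `Tri.sub`), and `phi D.ok (c' σ) = 0` (`phi_gm`), so `c' σ = 0` or `(0, 0)` (`phi_eq_zero`).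
`exists_kd`: `z`, `β` with `c' = kd D.ok β` (`funext`); `locI_of_tri` at all `v`; `H`: `LocI a b z`; `exists_R`: `c' σ = gm D D σ R'' - R''`. So `P = R' + R''`. (`IsGalois K (AlgebraicClosure K)` : `inferInstance` in characteristic `0`.) -/
theorem step {K : Type} [Field K] [NumberField K] {a b : K} (ho : Ok a b) {A B : AlgebraicClosure K}
    (D : Dt a b A B) (H : Hyp a b) (c : (AlgebraicClosure K ≃ₐ[K] AlgebraicClosure K) → (E A B).toAffine.Point)
    (hc : Crs D c) (hl : ∀ v : HeightOneSpectrum (𝓞 K), Tri D (v.adicCompletion K) c)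
    (R : (E (-2 * A) (A ^ 2 - 4 * B)).toAffine.Point)
    (hR : ∀ σ, phi D.ok (c σ) = gm D.dual D.dual σ.toAlgHom R - R) :
    ∃ P : (E A B).toAffine.Point, ∀ σ, c σ = gm D D σ.toAlgHom P - P := by
  obtain ⟨R', hR'⟩ := phi_surj (k := AlgebraicClosure K) D.ok R
  have h0 : ∀ σ, c σ - (gm D D σ.toAlgHom R' - R') = 0 ∨
      c σ - (gm D D σ.toAlgHom R' - R') = mk D.ok 0 0 zero_eq := fun σ =>
    (phi_eq_zero D.ok _).1 (by
      rw [map_sub, map_sub, phi_gm D D, hR, hR', sub_self])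
  obtain ⟨z, β, hz, hβ, hkd⟩ := exists_kd D _ (hc.sub R') h0
  have hc'' : (fun σ : AlgebraicClosure K ≃ₐ[K] AlgebraicClosure K =>
      c σ - (gm D D σ.toAlgHom R' - R')) = kd D.ok β := funext hkd
  have h1 : LocI a b z := H z hz fun v =>
    locI_of_tri ho D hz hβ (v.adicCompletion K) (hc'' ▸ (hl v).sub R')
  obtain ⟨R'', hR''⟩ := exists_R ho D hz hβ h1
  refine ⟨R' + R'', fun σ => ?_⟩
  have h2 := (hkd σ).trans (hR'' σ)
  rw [sub_eq_iff_eq_add] at h2
  rw [h2, map_add]
  abel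

end EQV
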