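import Pool.Agent.EQV.XA3
import Pool.Agent.EQV.XA8
import Pool.Agent.EQV.XA9p

set_option autoImplicit false

open WeierstrassCurve.Affine NumberField IsDedekindDomain
open scoped Classical

/-!
# [EQV-XA10] two steps
-/

namespace EQV

open Q2T

/-- [EQV-XA10] PROOF. `c₁ σ = phi D.ok (c σ)`: `Crs.phi`, `Tri.phi`; `phi D.dual.ok (c₁ σ) = sc D.ok (2 • c σ) = gm .. σ (sc D.ok P) - sc D.ok P` (`phi_phi`, `sc_gm`). `step (ok' ho) D.dual H2 c₁` with `R = sc D.ok P`: `c₁ σ = gm D.dual D.dual σ R₁ - R₁`.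
`step ho D H1 c` with `R₁`. -/
theorem two_step {K : Type} [Field K] [NumberField K] {a b : K} (ho : Ok a b) {A B : AlgebraicClosure K}
    (D : Dt a b A B) (H1 : Hyp a b) (H2 : Hyp (-2 * a) (a ^ 2 - 4 * b))
    (c : (AlgebraicClosure K ≃ₐ[K] AlgebraicClosure K) → (E A B).toAffine.Point)
    (hc : Crs D c) (hl : ∀ v : HeightOneSpectrum (𝓞 K), Tri D (v.adicCompletion K) c)
    (P : (E A B).toAffine.Point) (hP : ∀ σ, (2 : ℕ) • c σ = gm D D σ.toAlgHom P - P) :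
    ∃ Q : (E A B).toAffine.Point, ∀ σ, c σ = gm D D σ.toAlgHom Q - Q := by
  obtain ⟨R₁, hR₁⟩ := step (ok' ho) D.dual H2 (fun σ => EQV.phi D.ok (c σ)) hc.phi
    (fun v => (hl v).phi) (sc D.ok P) (fun σ => by
      rw [← sc_gm D D, ← map_sub, ← hP, phi_phi])
  exact step ho D H1 c hc hl R₁ hR₁

end EQV
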