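import Pool.Agent.EQV.XA10
import Pool.Agent.EQV.I2e

set_option autoImplicit false

open WeierstrassCurve.Affine NumberField IsDedekindDomain
open scoped Classical

/-!
# [EQV-XA11] the elements of order two of the Tate–Shafarevich group
-/

namespace EQV

open Q2T

/-- [EQV-XA11] PROOF. `obtain ⟨⟨c, hc⟩, rfl⟩ := QuotientAddGroup.mk_surjective x`; `hx` gives `2 • c ∈ coboundaries` (`QuotientAddGroup.eq_zero_iff`, `AddSubgroup.mem_addSubgroupOf`): `P` with `2 • c σ = Point.map σ P - P`. Let `D : Dt a b _ _ := Dt.ofOk ho`,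
`c' σ = tr (AlgebraicClosure K) a b C (c σ)`. `Crs D c'`: `hc.1.1.comp`, `hc.1.2` and `tr_map` (with `g = σ.toAlgHom`; the right side of `tr_map` is `gm D D σ.toAlgHom _` by definition). `Tri D (v.adicCompletion K) c'` for finite `v`: for `j`, `D'` (`obtain ⟨rfl, rfl, _⟩ := D'`): `hc.2.1 v j` gives `Q`;
take `tr (AlgebraicClosure _) a b C Q`, `tr_map` for `j` and for `σ.toAlgHom.restrictScalars K`. `two_step` with `tr P`: `c' σ = gm D D σ Q' - Q'`, so `c σ = Point.map σ Q - Q` for `Q = (tr ..).symm Q'` (`tr` is injective, `tr_map`): `x = 0`. Compare `locI_of_sha`, `cz_trivialOver`, `locI_of_cz`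
(EQV/I4.lean, I4b.lean, I4c.lean). -/
theorem sha_two {K : Type} [Field K] [NumberField K] {a b : K} (ho : Ok a b) (H1 : Hyp a b)
    (H2 : Hyp (-2 * a) (a ^ 2 - 4 * b)) (C : WeierstrassCurve.VariableChange K)
    (x : SBSD.Sha (C • E a b)) (hx : 2 • x = 0) : x = 0 := by
  obtain ⟨⟨c, hc⟩, rfl⟩ := QuotientAddGroup.mk_surjective x
  have h2 : (2 : ℕ) • c ∈ SBSD.coboundaries (C • E a b) := by
    have h3 : (2 : ℕ) • (⟨c, hc⟩ : SBSD.locTrivial (C • E a b)) ∈
        (SBSD.coboundaries (C • E a b)).addSubgroupOf (SBSD.locTrivial (C • E a b)) := by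
      rw [← QuotientAddGroup.eq_zero_iff]
      exact hx
    exact AddSubgroup.mem_addSubgroupOf.1 h3
  obtain ⟨P, hP⟩ := h2
  let D : Dt a b (algebraMap K (AlgebraicClosure K) a) (algebraMap K (AlgebraicClosure K) b) :=
    Dt.ofOk ho
  have hT : ∀ (σ : SBSD.AbsGal K) (R : SBSD.Pts (C • E a b) (AlgebraicClosure K)),
      tr (AlgebraicClosure K) a b C (WeierstrassCurve.Affine.Point.map σ.toAlgHom R) =
        gm D D σ.toAlgHom (tr (AlgebraicClosure K) a b C R) :=
    fun σ R => tr_map C D.ok D.ok σ.toAlgHom _ _ R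
  have hCrs : Crs D (fun σ => tr (AlgebraicClosure K) a b C (c σ)) :=
    ⟨hc.1.1.comp _, fun σ τ => by
      change tr (AlgebraicClosure K) a b C (c (σ * τ)) = _
      rw [hc.1.2 σ τ, map_add, hT]⟩
  have hTri : ∀ v : HeightOneSpectrum (𝓞 K), Tri D (v.adicCompletion K)
      (fun σ => tr (AlgebraicClosure K) a b C (c σ)) := by
    intro v j A' B' D'
    obtain ⟨rfl, rfl, ho'⟩ := id D'
    obtain ⟨Q, hQ⟩ := hc.2.1 v j
    refine ⟨tr (AlgebraicClosure (v.adicCompletion K)) a b C Q, fun σ τ h => ?_⟩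
    have e1 : tr (AlgebraicClosure (v.adicCompletion K)) a b C
        (WeierstrassCurve.Affine.Point.map j (c τ)) =
        gm D D' j (tr (AlgebraicClosure K) a b C (c τ)) :=
      tr_map C D.ok D'.ok j _ _ (c τ)
    have e2 : tr (AlgebraicClosure (v.adicCompletion K)) a b C
        (WeierstrassCurve.Affine.Point.map (σ.toAlgHom.restrictScalars K) Q) =
        gm D' D' (σ.toAlgHom.restrictScalars K)
          (tr (AlgebraicClosure (v.adicCompletion K)) a b C Q) :=
      tr_map C D'.ok D'.ok (σ.toAlgHom.restrictScalars K) _ _ Q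
    rw [← e1, ← e2, hQ σ τ h, map_sub]
  obtain ⟨Q, hQ⟩ := two_step ho D H1 H2 (fun σ => tr (AlgebraicClosure K) a b C (c σ)) hCrs hTri
    (tr (AlgebraicClosure K) a b C P) (fun σ => by
      change (2 : ℕ) • tr (AlgebraicClosure K) a b C (c σ) = _
      have h4 := hP σ
      rw [Pi.smul_apply] at h4
      rw [← map_nsmul, h4, map_sub, hT])
  rw [QuotientAddGroup.eq_zero_iff]
  refine AddSubgroup.mem_addSubgroupOf.2 ⟨(tr (AlgebraicClosure K) a b C).symm Q, fun σ => ?_⟩
  apply (tr (AlgebraicClosure K) a b C).injective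
  rw [map_sub, hT, AddEquiv.apply_symm_apply]
  exact hQ σ

end EQV
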