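import Pool.Agent.EQV.XA1

set_option autoImplicit false

open WeierstrassCurve.Affine
open scoped Classical

/-!
# [EQV-XA2] subtraction of a principal crossed homomorphism
-/

namespace EQV

open Q2T

/-- `σ ↦ gm D D σ P` is locally constant -/
theorem xa2_loc {F : Type} [Field F] {a b : F} {A B : AlgebraicClosure F} (D : Dt a b A B)
    (P : (E A B).toAffine.Point) : IsLocallyConstant
      (fun σ : AlgebraicClosure F ≃ₐ[F] AlgebraicClosure F => gm D D σ.toAlgHom P) := by
  rcases mk_cases D.ok P with rfl | ⟨x, y, hxy, rfl⟩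
  · have h0 : (fun σ : AlgebraicClosure F ≃ₐ[F] AlgebraicClosure F => gm D D σ.toAlgHom 0) =
        fun _ => 0 := funext fun σ => map_zero _
    rw [h0]
    exact IsLocallyConstant.const 0
  · rw [IsLocallyConstant.iff_exists_open]
    intro σ
    obtain ⟨U, hU, hσU, hU'⟩ := (IsLocallyConstant.iff_exists_open _).1 (i4a_loc x) σ
    obtain ⟨V, hV, hσV, hV'⟩ := (IsLocallyConstant.iff_exists_open _).1 (i4a_loc y) σ
    refine ⟨U ∩ V, hU.inter hV, ⟨hσU, hσV⟩, fun τ hτ => ?_⟩
    obtain ⟨h1, e1⟩ := gm_mk D D τ.toAlgHom x y hxy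
    obtain ⟨h2, e2⟩ := gm_mk D D σ.toAlgHom x y hxy
    show gm D D τ.toAlgHom _ = gm D D σ.toAlgHom _
    rw [e1, e2]
    exact mk_ext D.ok (hU' τ hτ.1) (hV' τ hτ.2)

/-- [EQV-XA2a] PROOF. Locally constant: `σ ↦ gm D D σ P` is locally constant: `P = 0`, or `P = mk x y` and `σ ↦ (σ x, σ y)` is locally constant (as `i4a_loc` in EQV/I4a.lean, `stabilizer_isOpen_of_isIntegral`;
its proof works for every algebraic extension, here `Ω = AlgebraicClosure F`); e.g. `h.loc.sub` (`IsLocallyConstant.sub`) and `IsLocallyConstant.comp₂` / `IsLocallyConstant.prodMk`. Crossed: `gm_comp` (with `g'' = (σ * τ).toAlgHom`),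
`map_sub`, `abel`. -/
theorem Crs.sub {F : Type} [Field F] {a b : F} {A B : AlgebraicClosure F} {D : Dt a b A B}
    {c : (AlgebraicClosure F ≃ₐ[F] AlgebraicClosure F) → (E A B).toAffine.Point} (h : Crs D c)
    (P : (E A B).toAffine.Point) : Crs D (fun σ => c σ - (gm D D σ.toAlgHom P - P)) := by
  refine ⟨?_, fun σ τ => ?_⟩
  · have h1 : IsLocallyConstant (fun σ : AlgebraicClosure F ≃ₐ[F] AlgebraicClosure F =>
        (gm D D σ.toAlgHom P - P)) := (xa2_loc D P).comp (fun Q => Q - P)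
    exact h.loc.sub h1
  · show c (σ * τ) - (gm D D (σ * τ).toAlgHom P - P) =
      c σ - (gm D D σ.toAlgHom P - P) + gm D D σ.toAlgHom (c τ - (gm D D τ.toAlgHom P - P))
    have h2 : gm D D σ.toAlgHom (gm D D τ.toAlgHom P) = gm D D (σ * τ).toAlgHom P :=
      gm_comp D D D _ _ _ (fun x => rfl) P
    rw [h.crs, map_sub (gm D D σ.toAlgHom), map_sub (gm D D σ.toAlgHom), h2]
    abel

/-- [EQV-XA2b] PROOF. `Q' = Q - gm D D' j P`; `gm D D' j (gm D D τ P) = gm D' D' σ (gm D D' j P)` by `gm_comp` twice (both are `gm D D' g''` for `g'' = j.comp τ.toAlgHom`, because `j (τ x) = σ (j x)`). -/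
theorem Tri.sub {K : Type} [Field K] {a b : K} {A B : AlgebraicClosure K} {D : Dt a b A B} {L : Type} [Field L]
    [Algebra K L] {c : (AlgebraicClosure K ≃ₐ[K] AlgebraicClosure K) → (E A B).toAffine.Point} (h : Tri D L c)
    (P : (E A B).toAffine.Point) : Tri D L (fun σ => c σ - (gm D D σ.toAlgHom P - P)) := by
  intro j A' B' D'
  obtain ⟨Q, hQ⟩ := h j A' B' D'
  refine ⟨Q - gm D D' j P, fun σ τ hστ => ?_⟩
  have h1 := hQ σ τ hστ
  have h2 : gm D D' j (gm D D τ.toAlgHom P) =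
      gm D' D' (σ.toAlgHom.restrictScalars K) (gm D D' j P) := by
    rw [gm_comp D D D' τ.toAlgHom j (j.comp τ.toAlgHom) (fun x => rfl) P,
      gm_comp D D' D' j (σ.toAlgHom.restrictScalars K) (j.comp τ.toAlgHom) (fun x => hστ x) P]
  show gm D D' j (c τ - (gm D D τ.toAlgHom P - P)) =
    gm D' D' (σ.toAlgHom.restrictScalars K) (Q - gm D D' j P) - (Q - gm D D' j P)
  rw [map_sub (gm D D' j), map_sub (gm D D' j), map_sub (gm D' D' (σ.toAlgHom.restrictScalars K)),
    h1, h2]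
  abel

end EQV
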