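import Pool.Agent.EQV.XA1

set_option autoImplicit false

open WeierstrassCurve.Affine
open scoped Classical

/-!
# [EQV-XA3] the image of a crossed homomorphism under the isogeny
-/

namespace EQV

open Q2T

/-- [EQV-XA3a] PROOF. `h.loc.comp`; `h.crs`, `map_add`, `phi_gm`. -/
theorem Crs.phi {F : Type} [Field F] {Ω : Type} [Field Ω] [Algebra F Ω] {a b : F} {A B : Ω} {D : Dt a b A B}
    {c : (Ω ≃ₐ[F] Ω) → (E A B).toAffine.Point} (h : Crs D c) :
    Crs D.dual (fun σ => EQV.phi D.ok (c σ)) := by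
  refine ⟨h.loc.comp _, fun σ τ => ?_⟩
  show EQV.phi D.ok (c (σ * τ)) = EQV.phi D.ok (c σ) + gm D.dual D.dual σ.toAlgHom (EQV.phi D.ok (c τ))
  rw [h.crs, map_add, phi_gm D D]

theorem xa3_ok {F Ω Ω' : Type} [Field F] [Field Ω] [Field Ω'] [Algebra F Ω] [Algebra F Ω'] {a b : F}
    {A B : Ω} (D : Dt a b A B) (j : Ω →ₐ[F] Ω') :
    Ok (algebraMap F Ω' a) (algebraMap F Ω' b) := by
  obtain ⟨h2, hb, hd⟩ := D.ok
  have hA : algebraMap F Ω' a = j A := by rw [← D.hA, j.commutes]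
  have hB : algebraMap F Ω' b = j B := by rw [← D.hB, j.commutes]
  rw [hA, hB]
  refine ⟨?_, (map_ne_zero j).2 hb, ?_⟩
  · rw [← map_ofNat j]
    exact (map_ne_zero j).2 h2
  · have e : j A ^ 2 - 4 * j B = j (A ^ 2 - 4 * B) := by
      rw [map_sub, map_pow, map_mul, map_ofNat]
    rw [e]
    exact (map_ne_zero j).2 hd

/-- [EQV-XA3b] PROOF. Given `j`, `A''`, `B''`, `D''`: let `D' : Dt a b (algebraMap K _ a) (algebraMap K _ b)` (`Ok` from `D`: `j` maps `A`, `B` to these; e.g. `Ok` of `D.ok` under the injective `j`, compare `ok_am`);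
`A'' = -2 * A'`, `B'' = A' ^ 2 - 4 * B'` by `D''.hA`, `D''.hB`, `D'.dual.hA`, ..: `obtain rfl`. `Q'' = phi D'.ok Q`, `phi_gm`. -/
theorem Tri.phi {K : Type} [Field K] {a b : K} {A B : AlgebraicClosure K} {D : Dt a b A B} {L : Type} [Field L]
    [Algebra K L] {c : (AlgebraicClosure K ≃ₐ[K] AlgebraicClosure K) → (E A B).toAffine.Point} (h : Tri D L c) :
    Tri D.dual L (fun σ => EQV.phi D.ok (c σ)) := by
  intro j A'' B'' D''
  have D' : Dt a b (algebraMap K (AlgebraicClosure L) a) (algebraMap K (AlgebraicClosure L) b) :=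
    ⟨rfl, rfl, xa3_ok D j⟩
  obtain rfl : A'' = -2 * algebraMap K (AlgebraicClosure L) a := D''.hA.symm.trans D'.dual.hA
  obtain rfl : B'' = (algebraMap K (AlgebraicClosure L) a) ^ 2 -
    4 * algebraMap K (AlgebraicClosure L) b := D''.hB.symm.trans D'.dual.hB
  obtain ⟨Q, hQ⟩ := h j _ _ D'
  refine ⟨EQV.phi D'.ok Q, fun σ τ hστ => ?_⟩
  have h1 := congrArg (EQV.phi D'.ok) (hQ σ τ hστ)
  rw [map_sub, phi_gm D D' j, phi_gm D' D' (σ.toAlgHom.restrictScalars K)] at h1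
  exact h1

end EQV
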